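import Mathlib

set_option autoImplicit false

namespace Pool.Agent.Results.MP_b004e2_gt.ExtraLine

open Set Topology

/-- The group of self-homeomorphisms of `M` that leave `f` invariant. -/
def G {M : Type} [TopologicalSpace M] (f : M → ℝ) : Subgroup (M ≃ₜ M) where
  carrier := {T | ∀ p, f (T p) = f p}
  mul_mem' := fun {S T} hS hT p => (hS (T p)).trans (hT p)
  one_mem' := fun _ => rfl
  inv_mem' := fun {T} hT p => by
    have := hT (T.symm p)
    rw [T.apply_symm_apply] at this
    exact this.symm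

variable {M : Type} [TopologicalSpace M]

noncomputable def ext (f : M → ℝ) : M ⊕ ℝ → ℝ :=
  Sum.elim (fun p => -Real.exp (f p)) Real.exp

def up (f : M → ℝ) : G f →* G (ext f) where
  toFun T := ⟨T.1.sumCongr (Homeomorph.refl ℝ), by
    rintro (p | r)
    · exact congrArg (fun t => -Real.exp t) (T.2 p)
    · rfl⟩
  map_one' := Subtype.ext (Homeomorph.ext (by rintro (p | r) <;> rfl))
  map_mul' := fun _ _ => Subtype.ext (Homeomorph.ext (by rintro (p | r) <;> rfl))

theorem left (f : M → ℝ) (T : G (ext f)) (p : M) : ∃ q, T.1 (Sum.inl p) = Sum.inl q := by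
  have h := T.2 (Sum.inl p)
  rcases e : T.1 (Sum.inl p) with q | r
  · exact ⟨q, rfl⟩
  · rw [e] at h
    have h' : Real.exp r = -Real.exp (f p) := h
    linarith [Real.exp_pos r, Real.exp_pos (f p)]

theorem right (f : M → ℝ) (T : G (ext f)) (r : ℝ) : T.1 (Sum.inr r) = Sum.inr r := by
  have h := T.2 (Sum.inr r)
  rcases e : T.1 (Sum.inr r) with q | s
  · rw [e] at h
    have h' : -Real.exp (f q) = Real.exp r := h
    linarith [Real.exp_pos r, Real.exp_pos (f q)]
  · rw [e] at h
    rw [Real.exp_injective h]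

theorem bij (f : M → ℝ) : Function.Bijective (up f) := by
  refine ⟨fun S T h => Subtype.ext (Homeomorph.ext fun p => ?_), fun T => ?_⟩
  · exact Sum.inl_injective (congrArg (fun U : G (ext f) => U.1 (Sum.inl p)) h)
  · choose g hg using left f
    have hc : ∀ U, Continuous (g U) := fun U => IsEmbedding.inl.continuous_iff.2
      ((U.1.continuous.comp continuous_inl).congr (hg U))
    have hinv : ∀ U p, g U⁻¹ (g U p) = p := fun U p => Sum.inl_injective (β := ℝ) (by
      rw [← hg, ← hg]; exact U.1.symm_apply_apply _)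
    refine ⟨⟨⟨⟨g T, g T⁻¹, hinv T, fun p => by simpa using hinv T⁻¹ p⟩, hc T, hc T⁻¹⟩, fun p => ?_⟩,
      Subtype.ext (Homeomorph.ext ?_)⟩
    · have h := T.2 (Sum.inl p)
      rw [hg] at h
      exact Real.exp_injective (neg_injective h)
    · rintro (p | r)
      · exact (hg T p).symm
      · exact (right f T r).symm

theorem result (M : Type) [TopologicalSpace M] [ConnectedSpace M] :
    IsEmpty (M ≃ₜ M ⊕ ℝ) ∧ ∀ f₀ : M → ℝ, Continuous f₀ →
      ∃ f : M ⊕ ℝ → ℝ, Continuous f ∧ Nonempty (G f₀ ≃* G f) := by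
  refine ⟨⟨fun e => ?_⟩, fun f₀ h => ⟨ext f₀, h.rexp.neg.sumElim Real.continuous_exp,
    ⟨MulEquiv.ofBijective _ (bij f₀)⟩⟩⟩
  haveI := e.surjective.connectedSpace e.continuous
  obtain ⟨p, hp⟩ := (isClopen_range_inl.eq_univ (range_nonempty _)).ge
    (mem_univ (Sum.inr 0 : M ⊕ ℝ))
  cases hp

end Pool.Agent.Results.MP_b004e2_gt.ExtraLine
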